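import Mathlib
import Pool.Agent.Q178.MM.Seq

/-!
# All four Berger–Wang type identities fail for the minimax joint spectral radii

For two finite sets `𝒜`, `ℬ` of real `N × N` matrices (definitions in
`Pool.Agent.Q178.MM.Basic` and `Pool.Agent.Q178.MM.Seq`):

* `altProd n A B = A_{n-1} B_{n-1} ⋯ A_0 B_0` for words `A, B : Fin n → Matrix`;
* `muSeq φ 𝒜 ℬ n = max_A min_B φ (altProd n A B)` over `A ∈ 𝒜ⁿ`, `B ∈ ℬⁿ`;
* `etaSeq φ 𝒜 ℬ n = min_B max_A φ (altProd n A B)`;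
* `specRad X` is the spectral radius of the real matrix `X` (largest modulus of a complex
  eigenvalue); `IsNorm ν` says that `ν` is a norm on the space of matrices.

With `ν` a norm, `μ_n = muSeq ν 𝒜 ℬ n`, `η_n = etaSeq ν 𝒜 ℬ n`, `μ̄_n = muSeq specRad 𝒜 ℬ n`,
`η̄_n = etaSeq specRad 𝒜 ℬ n`.  There is a pair `(𝒜, ℬ)` of finite sets of `5 × 5` matrices
(16 matrices and 2 matrices, integer entries) for which, for every norm,
`μ = lim μ_n^(1/n)` and `η = lim η_n^(1/n)` are at least `1`, while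
`μ̂ = μ̌ = η̂ = η̌ = 0` (even `μ̄_n = η̄_n = 0` for every `n ≥ 1`).

Idea: the letters `𝒜` append a digit in bijective base 16 to the current block, the marker in
`ℬ` ends a block; every second marker multiplies by the difference of the values of the last two
blocks.  Along a square-free word no choice of markers gives `0`; but one marker per period
always gives a nilpotent matrix.
-/

namespace Pool.Agent.Results.MP_36f7ac_an.AllFourFail

open Filter Topology Pool.Agent.Q178.MM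

theorem result : ∃ (N : ℕ) (𝒜 ℬ : Finset (Matrix (Fin N) (Fin N) ℝ)),
    𝒜.Nonempty ∧ ℬ.Nonempty ∧ ∃ μ η : ℝ,
      (∀ ν : Matrix (Fin N) (Fin N) ℝ → ℝ, IsNorm ν →
        Tendsto (fun n : ℕ => muSeq ν 𝒜 ℬ n ^ (1 / (n : ℝ))) atTop (𝓝 μ) ∧
        Tendsto (fun n : ℕ => etaSeq ν 𝒜 ℬ n ^ (1 / (n : ℝ))) atTop (𝓝 η)) ∧
      1 ≤ μ ∧ 1 ≤ η ∧
      (∀ n : ℕ, 1 ≤ n → muSeq specRad 𝒜 ℬ n = 0 ∧ etaSeq specRad 𝒜 ℬ n = 0) ∧
      limsup (fun n : ℕ => muSeq specRad 𝒜 ℬ n ^ (1 / (n : ℝ))) atTop < μ ∧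
      limsup (fun n : ℕ => etaSeq specRad 𝒜 ℬ n ^ (1 / (n : ℝ))) atTop < η ∧
      liminf (fun n : ℕ => muSeq specRad 𝒜 ℬ n ^ (1 / (n : ℝ))) atTop < μ ∧
      liminf (fun n : ℕ => etaSeq specRad 𝒜 ℬ n ^ (1 / (n : ℝ))) atTop < η := by
  obtain ⟨μ, η, hμ, hη, h⟩ := norm_case cA_ne cB_ne mu_ge eta_ge
  have h1 : Tendsto (fun n : ℕ => muSeq specRad cA cB n ^ (1 / (n : ℝ))) atTop (𝓝 0) := by
    refine tendsto_const_nhds.congr' ?_
    filter_upwards [eventually_ge_atTop 1] with n hn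
    have h0 : (1 / (n : ℝ)) ≠ 0 := by positivity
    rw [mu_spec n hn, Real.zero_rpow h0]
  have h2 : Tendsto (fun n : ℕ => etaSeq specRad cA cB n ^ (1 / (n : ℝ))) atTop (𝓝 0) := by
    refine tendsto_const_nhds.congr' ?_
    filter_upwards [eventually_ge_atTop 1] with n hn
    have h0 : (1 / (n : ℝ)) ≠ 0 := by positivity
    rw [eta_spec n hn, Real.zero_rpow h0]
  refine ⟨5, cA, cB, cA_ne, cB_ne, μ, η, h, hμ, hη, fun n hn => ⟨mu_spec n hn, eta_spec n hn⟩,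
    ?_, ?_, ?_, ?_⟩
  · rw [h1.limsup_eq]; linarith
  · rw [h2.limsup_eq]; linarith
  · rw [h1.liminf_eq]; linarith
  · rw [h2.liminf_eq]; linarith

end Pool.Agent.Results.MP_36f7ac_an.AllFourFail
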